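import Mathlib
import Pool.Agent.Y462.PA.Stm
import Pool.Agent.Y417.FJ.Am

/-!
The embedding in the proof of `S_AM` (repackaged from `Pool.Agent.Y417.FJ.Am` of helper417).
-/

set_option autoImplicit false

namespace Pool.Agent.Y919.PA

open Pool.Agent.Y110.FJ
open Pool.Agent.Y417.FJ

theorem t_emb (hperm : S_PERM) : Pool.Agent.Y462.PA.S_EMB := by
  intro C hC G P _ _ A B K hamg f hfA hfB hCP
  let X : Type := P ⧸ K.map f
  let x1 : X := ((1 : P) : P ⧸ K.map f)
  let z : FreeGroup X ⋊[permAut X P] P := SemidirectProduct.inl (FreeGroup.of x1)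
  have hx1 : ∀ p : P, p • x1 = x1 ↔ p ∈ K.map f := by
    intro p
    show ((p * 1 : P) : P ⧸ K.map f) = ((1 : P) : P ⧸ K.map f) ↔ _
    rw [mul_one, eq_comm, QuotientGroup.eq]
    simp
  have hz : ∀ p : P, p ∈ K.map f →
      z * SemidirectProduct.inr p * z⁻¹ = (SemidirectProduct.inr p : FreeGroup X ⋊[permAut X P] P) := by
    intro p hp
    have h1 : (permAut X P p) (FreeGroup.of x1) = FreeGroup.of x1 := by
      have := permAut_mk p [((x1, true) : X × Bool)]
      have h2 : (permAut X P p) (FreeGroup.of x1) = FreeGroup.of (p • x1) := this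
      rw [h2, (hx1 p).2 hp]
    have h3 : (SemidirectProduct.inr p : FreeGroup X ⋊[permAut X P] P) * z * (SemidirectProduct.inr p)⁻¹ = z := by
      rw [← map_inv, ← SemidirectProduct.inl_aut, h1]
    have h4 : (SemidirectProduct.inr p : FreeGroup X ⋊[permAut X P] P) * z = z * SemidirectProduct.inr p := by
      rw [mul_inv_eq_iff_eq_mul] at h3; exact h3
    rw [← h4, mul_inv_cancel_right]
  let fA : A →* FreeGroup X ⋊[permAut X P] P := (SemidirectProduct.inr.comp f).comp A.subtype
  let fB : B →* FreeGroup X ⋊[permAut X P] P :=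
    ((MulAut.conj z).toMonoidHom.comp (SemidirectProduct.inr.comp f)).comp B.subtype
  obtain ⟨Θ, hΘA, hΘB⟩ := hamg.univ (FreeGroup X ⋊[permAut X P] P) fA fB (by
    intro c hc
    show SemidirectProduct.inr (f c) = z * SemidirectProduct.inr (f c) * z⁻¹
    rw [hz (f c) ⟨c, hc, rfl⟩])
  have hA' : ∀ a ∈ A, Θ a = SemidirectProduct.inr (f a) := fun a ha => hΘA ⟨a, ha⟩
  have hB' : ∀ b ∈ B, Θ b = z * SemidirectProduct.inr (f b) * z⁻¹ := fun b hb => hΘB ⟨b, hb⟩
  have hright : ∀ g : G, (Θ g).right = f g := by
    intro g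
    have hg : g ∈ Subgroup.closure ((A : Set G) ∪ B) := by
      rw [← Subgroup.sup_eq_closure, hamg.gen]; trivial
    induction hg using Subgroup.closure_induction with
    | mem x hx =>
      rcases hx with hx | hx
      · rw [hA' x hx]; simp
      · rw [hB' x hx]; simp [z]
    | one => simp
    | mul x y _ _ hx hy => rw [map_mul, map_mul, SemidirectProduct.mul_right, hx, hy]
    | inv x _ hx => rw [map_inv, map_inv, SemidirectProduct.inv_right, hx]
  have hleft : ∀ g h : G, (Θ (g * h)).left = (Θ g).left * permAut X P (f g) (Θ h).left := by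
    intro g h
    rw [map_mul, SemidirectProduct.mul_left, hright]
  have hlA : ∀ a ∈ A, (Θ a).left = 1 := by
    intro a ha
    rw [hA' a ha]; simp
  have hlB : ∀ b ∈ B, (Θ b).left = FreeGroup.mk [(x1, true), (f b • x1, false)] := by
    intro b hb
    rw [hB' b hb]
    have h1 : (z * SemidirectProduct.inr (f b) * z⁻¹).left
        = FreeGroup.of x1 * permAut X P (f b) (FreeGroup.of x1)⁻¹ := by
      simp [z, SemidirectProduct.mul_left]
    have h2 : permAut X P (f b) (FreeGroup.of x1)⁻¹ = FreeGroup.mk [((f b • x1, false) : X × Bool)] := by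
      have := permAut_mk (f b) [((x1, false) : X × Bool)]
      rw [FreeGroup.of, FreeGroup.inv_mk]
      exact this
    rw [h1, h2, FreeGroup.of, FreeGroup.mul_mk]
    rfl
  -- elements outside of `K` have images outside of `f K`
  have hoA : ∀ a ∈ A, a ∉ K → f a ∉ K.map f := by
    rintro a ha haK ⟨k, hk, hfk⟩
    have : f (a * k⁻¹) = 1 := by rw [map_mul, map_inv, hfk, mul_inv_cancel]
    have h2 := hfA _ (A.mul_mem ha (A.inv_mem (hamg.le_left hk))) this
    exact haK (by rw [mul_inv_eq_one.1 h2]; exact hk)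
  have hoB : ∀ b ∈ B, b ∉ K → f b ∉ K.map f := by
    rintro b hb hbK ⟨k, hk, hfk⟩
    have : f (b * k⁻¹) = 1 := by rw [map_mul, map_inv, hfk, mul_inv_cancel]
    have h2 := hfB _ (B.mul_mem hb (B.inv_mem (hamg.le_right hk))) this
    exact hbK (by rw [mul_inv_eq_one.1 h2]; exact hk)
  have halt : ∀ g, Alt A B K g → ∃ L : List (X × Bool), FreeGroup.IsReduced ((x1, true) :: L) ∧
      (Θ g).left = FreeGroup.mk ((x1, true) :: L) := by
    intro g hg
    induction hg with
    | base b a hb hbK ha =>
      refine ⟨[(f b • x1, false)], ?_, ?_⟩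
      · rw [FreeGroup.isReduced_cons_cons]
        refine ⟨fun h => ?_, FreeGroup.IsReduced.singleton⟩
        exact absurd ((hx1 _).1 h.symm) (hoB b hb hbK)
      · rw [hleft, hlA a ha, map_one, mul_one, hlB b hb]
    | step b a g hb hbK ha haK hg ih =>
      obtain ⟨L, hL, hLg⟩ := ih
      refine ⟨(f b • x1, false) :: ((x1, true) :: L).map (fun q => (f (b * a) • q.1, q.2)), ?_, ?_⟩
      · rw [FreeGroup.isReduced_cons_cons]
        refine ⟨fun h => absurd ((hx1 _).1 h.symm) (hoB b hb hbK), ?_⟩
        rw [List.map_cons, FreeGroup.isReduced_cons_cons]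
        refine ⟨fun h => ?_, ?_⟩
        · exfalso
          have h' : f b • x1 = f (b * a) • x1 := h
          rw [map_mul, mul_smul] at h'
          exact hoA a ha haK ((hx1 _).1 (MulAction.injective (f b) h').symm)
        · have := reduced_map (f (b * a)) _ hL
          rwa [List.map_cons] at this
      · have h1 : (Θ (b * a)).left = FreeGroup.mk [(x1, true), (f b • x1, false)] := by
          rw [hleft, hlA a ha, map_one, mul_one, hlB b hb]
        rw [hleft, h1, hLg, permAut_mk, FreeGroup.mul_mk]
        rfl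
  have hinj : Function.Injective Θ := by
    rw [injective_iff_map_eq_one]
    intro g hg
    rcases nf_all A B K hamg.le_left hamg.le_right hamg.gen g with hgA | ⟨a, ha, h, hh, rfl⟩
    · have h1 := hright g
      rw [hg] at h1
      exact hfA g hgA h1.symm
    · exfalso
      obtain ⟨L, hL, hLg⟩ := halt h hh
      have h1 := hleft a h
      rw [hg, hlA a ha, one_mul, hLg, permAut_mk] at h1
      have h2 : FreeGroup.IsReduced (((x1, true) :: L).map fun q => (f a • q.1, q.2)) :=
        reduced_map _ _ hL
      classical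
      have h3 : (1 : FreeGroup X).toWord = (((x1, true) :: L).map fun q => (f a • q.1, q.2)) := by
        have h4 : (FreeGroup.mk (((x1, true) :: L).map fun q => (f a • q.1, q.2))).toWord
            = (((x1, true) :: L).map fun q => (f a • q.1, q.2)) := by
          rw [FreeGroup.toWord_mk]
          exact h2.reduce_eq
        rw [← h4]
        exact congrArg _ h1
      simp at h3
  exact ⟨FreeGroup X ⋊[permAut X P] P, inferInstance, SemidirectProduct.inr, z, Θ,
    hperm C hC X P hCP, SemidirectProduct.inr_injective, hinj, hA', hB'⟩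

end Pool.Agent.Y919.PA
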